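import Pool.Agent.C4U.Stmts

/-!
Row BOX of the squad C4U (MP_be2f05_lc).
-/

set_option autoImplicit false

namespace Pool.Agent.C4U.H14

theorem box : BoxStmt := by
  intro m C S hS
  let F : Finset (Fin m → ℕ) := Fintype.piFinset fun i : Fin m => C i
  let r : (ℕ → ℕ) → (Fin m → ℕ) := fun f i => f i
  have hmaps : ∀ f ∈ S, r f ∈ (F : Set (Fin m → ℕ)) := by
    intro f hf
    refine Finset.mem_coe.2 (Fintype.mem_piFinset.2 fun i => ?_)
    exact (hS f hf).1 i i.2
  have hinj : Set.InjOn r S := by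
    intro f hf g hg hfg
    funext e
    by_cases he : e < m
    · exact congrFun hfg ⟨e, he⟩
    · rw [(hS f hf).2 e (by omega), (hS g hg).2 e (by omega)]
  have hfin : S.Finite := Set.Finite.of_injOn hmaps hinj F.finite_toSet
  refine ⟨hfin, ?_⟩
  have h1 := Set.ncard_le_ncard_of_injOn r hmaps hinj F.finite_toSet
  rw [Set.ncard_coe_finset, Fintype.card_piFinset] at h1
  rw [Finset.prod_range]
  exact h1

end Pool.Agent.C4U.H14
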